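import Pool.Agent.H.MP_6c9e22_co.A

namespace Pool.Agent.Results.MP_6c9e22_co.Differ

open Finset

/-- vectors in `{-1,0,1}^n` with exactly `k` nonzero coordinates -/
def Vt (n k : ℕ) : Type :=
  {v : Fin n → ℤ // (∀ i, v i = -1 ∨ v i = 0 ∨ v i = 1) ∧ (univ.filter (fun i => v i ≠ 0)).card = k}

/-- signed Johnson graph: scalar product equal to `t` -/
def J (n k : ℕ) (t : ℤ) : SimpleGraph (Vt n k) where
  Adj u v := u ≠ v ∧ ∑ i, u.1 i * v.1 i = t
  symm := ⟨fun _ _ h => ⟨h.1.symm, by simpa only [mul_comm] using h.2⟩⟩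
  loopless := ⟨fun _ h => h.1 rfl⟩

/-- signed Kneser graph: scalar product at most `t` -/
def K (n k : ℕ) (t : ℤ) : SimpleGraph (Vt n k) where
  Adj u v := u ≠ v ∧ ∑ i, u.1 i * v.1 i ≤ t
  symm := ⟨fun _ _ h => ⟨h.1.symm, by simpa only [mul_comm] using h.2⟩⟩
  loopless := ⟨fun _ h => h.1 rfl⟩

open Pool.Agent.H.MP_6c9e22_co

/-- sign of a boolean -/
def sg (s : Bool) : ℤ := if s then 1 else -1

/-- the vector with two given signed coordinates -/
def vec {n : ℕ} (i : Fin n) (s : Bool) (j : Fin n) (t : Bool) (h : j ≠ i) : Vt n 2 :=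
  ⟨Pi.single i (sg s) + Pi.single j (sg t), fun l => by
    by_cases a : l = i
    · subst a; cases s <;> simp [sg, h.symm]
    · by_cases b : l = j
      · subst b; cases t <;> simp [sg, h]
      · simp [a, b], by
    rw [card_eq_two]
    refine ⟨i, j, h.symm, ?_⟩
    ext l
    by_cases a : l = i
    · subst a; cases s <;> simp [sg, h.symm]
    · by_cases b : l = j
      · subst b; cases t <;> simp [sg, h]
      · simp [a, b]⟩

lemma notK (q : ℕ) (hq : 30 ≤ q) :
    ¬ (K ((2 * (4 * q)).choose (4 * q)) 2 (-1)).Colorable (8 * q + 1) := by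
  rintro ⟨C⟩
  have := core (I := Fin ((2 * (4 * q)).choose (4 * q))) (C := Fin (8 * q + 1))
    (fun i s j t => if h : j ≠ i then C (vec i s j t h) else 0) ?_ ?_ q hq (Fintype.card_fin _)
  · simp at this
  · intro i s j t
    by_cases h : j ≠ i
    · rw [dif_pos h, dif_pos h.symm]
      congr 1
      exact Subtype.ext (add_comm _ _)
    · rw [dif_neg h, dif_neg (fun h' => h h'.symm)]
  · intro i s j t l u h1 h2 e
    rw [dif_pos h1, dif_pos h2] at e
    by_contra hn
    refine C.valid ⟨fun e' => ?_, ?_⟩ e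
    · have := congrFun (congrArg Subtype.val e') i
      cases s <;> simp [vec, sg, h1.symm, h2.symm] at this
    · simp only [vec, Pi.add_apply, add_mul, sum_add_distrib, Pi.single_apply, ite_mul, zero_mul,
        sum_ite_eq', mem_univ, if_true, if_neg h2.symm, if_neg h1]
      by_cases e' : j = l
      · subst e'
        cases s <;> cases t <;> cases u <;> simp_all [sg]
      · cases s <;> simp [sg, e']

lemma yesJ (r n : ℕ) (hn : n = (2 * r).choose r) : (J n 2 (-1)).Colorable (2 * r + 1) := by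
  classical
  obtain ⟨e, e1, e2⟩ : ∃ e : Fin n → Finset (Fin (2 * r)), Function.Injective e ∧
      ∀ i, (e i).card = r := by
    have h : Fintype.card (Fin n) = Fintype.card (powersetCard r (univ : Finset (Fin (2 * r)))) := by
      simp [hn]
    refine ⟨fun i => (Fintype.equivOfCardEq h i).1, fun i j h' =>
      (Fintype.equivOfCardEq h).injective (Subtype.ext h'), fun i => ?_⟩
    exact (mem_powersetCard.1 (Fintype.equivOfCardEq h i).2).2
  let P : Vt n 2 → Fin (2 * r) → Prop := fun v a => ∀ i, (v.1 i = 1 → a ∈ e i) ∧ (v.1 i = -1 → a ∉ e i)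
  have st : ∀ v : Vt n 2, (¬ ∃ a, P v a) →
      ∃ i j, i ≠ j ∧ (∀ l, v.1 l ≠ 0 ↔ l = i ∨ l = j) ∧ e j = (e i)ᶜ := by
    intro v hv
    obtain ⟨i, j, h1, h2⟩ := card_eq_two.1 v.2.2
    have h3 : ∀ l, v.1 l ≠ 0 ↔ l = i ∨ l = j := fun l => by
      simpa using congrArg (l ∈ ·) h2
    refine ⟨i, j, h1, h3, ?_⟩
    let X : Fin n → Finset (Fin (2 * r)) := fun l => if v.1 l = 1 then e l else (e l)ᶜ
    have hX : ∀ l, (X l).card = r := fun l => by
      simp only [X]
      split_ifs
      · exact e2 l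
      · rw [card_compl, e2, Fintype.card_fin]; omega
    have h4 : X j ⊆ (X i)ᶜ := by
      intro a ha
      rw [mem_compl]
      intro hb
      refine hv ⟨a, fun l => ?_⟩
      have h5 : v.1 l ≠ 0 → a ∈ X l := fun h => by rcases (h3 l).1 h with rfl | rfl <;> assumption
      constructor
      · intro h; simpa [X, h] using h5 (by omega)
      · intro h; simpa [X, h] using h5 (by omega)
    have h5 := eq_of_subset_of_card_le h4 (by rw [card_compl, hX, hX, Fintype.card_fin]; omega)
    simp only [X] at h5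
    split_ifs at h5
    · exact h5
    · exact absurd (e1 (h5.trans (compl_compl _))) h1.symm
    · exact absurd (e1 (compl_injective h5)) h1.symm
    · rw [← compl_compl (e j), h5, compl_compl]
  have C : (J n 2 (-1)).Coloring (Option (Fin (2 * r))) := by
    refine SimpleGraph.Coloring.mk (fun v => if h : ∃ a, P v a then some h.choose else none) ?_
    rintro u v ⟨-, h⟩ e'
    by_cases hu : ∃ a, P u a <;> by_cases hv : ∃ a, P v a
    · simp only [dif_pos hu, dif_pos hv, Option.some.injEq] at e'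
      have a1 := hu.choose_spec
      have a2 := hv.choose_spec
      rw [← e'] at a2
      have : 0 ≤ ∑ i, u.1 i * v.1 i := sum_nonneg fun i _ => by
        have b1 := a1 i
        have b2 := a2 i
        rcases u.2.1 i with c1 | c1 | c1 <;> rcases v.2.1 i with c2 | c2 | c2 <;> simp_all
      omega
    · simp [dif_pos hu, dif_neg hv] at e'
    · simp [dif_neg hu, dif_pos hv] at e'
    · obtain ⟨i, j, h1, h2, h3⟩ := st u hu
      obtain ⟨l, m, h4, h5, h6⟩ := st v hv
      have h7 : ∑ x, u.1 x * v.1 x = u.1 i * v.1 i + u.1 j * v.1 j := by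
        rw [← sum_pair (f := fun x => u.1 x * v.1 x) h1]
        refine (sum_subset (subset_univ _) fun x _ hx => ?_).symm
        have : u.1 x = 0 := by
          by_contra h'
          exact hx (by simpa using (h2 x).1 h')
        rw [this, zero_mul]
      have h8 : ∀ x y, e y = (e x)ᶜ → v.1 x ≠ 0 → v.1 y ≠ 0 := by
        intro x y hxy hx
        rcases (h5 x).1 hx with rfl | rfl
        · exact (h5 y).2 (Or.inr (e1 (hxy.trans h6.symm)))
        · exact (h5 y).2 (Or.inl (e1 (by rw [hxy, h6, compl_compl])))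
      have b1 := h8 i j h3
      have b2 := h8 j i (by rw [h3, compl_compl])
      have b3 := (h2 i).2 (Or.inl rfl)
      have b4 := (h2 j).2 (Or.inr rfl)
      rw [h7] at h
      rcases u.2.1 i with c1 | c1 | c1 <;> rcases u.2.1 j with c2 | c2 | c2 <;>
        rcases v.2.1 i with c3 | c3 | c3 <;> rcases v.2.1 j with c4 | c4 | c4 <;> simp_all
  simpa using C.colorable

theorem result :
    (∀ n₀ : ℕ, ∃ n, n₀ ≤ n ∧ (J n 2 (-1)).chromaticNumber < (K n 2 (-1)).chromaticNumber) ∧
    ¬ ∀ (k : ℕ) (t : ℤ), 1 ≤ k → -(k : ℤ) ≤ t → t < 0 →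
      ∃ n₀ : ℕ, ∀ n, n₀ ≤ n → (J n k t).chromaticNumber = (K n k t).chromaticNumber := by
  have h : ∀ n₀ : ℕ, ∃ n, n₀ ≤ n ∧
      (J n 2 (-1)).chromaticNumber < (K n 2 (-1)).chromaticNumber := by
    intro n₀
    refine ⟨(2 * (4 * (n₀ + 30))).choose (4 * (n₀ + 30)), ?_, ?_⟩
    · have h := Nat.choose_le_middle 1 (2 * (4 * (n₀ + 30)))
      rw [Nat.choose_one_right, show 2 * (4 * (n₀ + 30)) / 2 = 4 * (n₀ + 30) by omega] at h
      omega
    · have h1 := (yesJ (4 * (n₀ + 30)) _ rfl).chromaticNumber_le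
      have h2 := notK (n₀ + 30) (by omega)
      rw [← SimpleGraph.chromaticNumber_le_iff_colorable, not_le] at h2
      refine h1.trans_lt ?_
      rwa [show 2 * (4 * (n₀ + 30)) + 1 = 8 * (n₀ + 30) + 1 by ring]
  refine ⟨h, fun h' => ?_⟩
  obtain ⟨n₀, h0⟩ := h' 2 (-1) (by norm_num) (by norm_num) (by norm_num)
  obtain ⟨n, h1, h2⟩ := h n₀
  exact h2.ne (h0 n h1)

end Pool.Agent.Results.MP_6c9e22_co.Differ
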